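import Mathlib
import Pool.Agent.H23.OrthoDDefs

set_option autoImplicit false

namespace Pool.Agent.Results.MP_4cfb12_co.Zero
open Pool.Agent.H23.OrthoD

theorem result : ∃ n : ℕ, 3 ≤ n ∧ ∃ F p : Vec n → Vec n,
    Quadratic F ∧ APN F ∧ IsOrtho F p ∧ NL p = 0 := by
  refine ⟨3, le_rfl, fun x => ![x 1 * x 2, x 0 * x 2, x 0 * x 1], fun a => a,
    ⟨fun i S => if S = {i}ᶜ then 1 else 0, by decide +kernel, by decide +kernel,
      0, {0}ᶜ, by decide, by decide⟩, ?_, ⟨rfl, ?_⟩, ?_⟩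
  · unfold APN der
    decide +kernel
  · unfold der
    decide +kernel
  · refine Nat.sInf_eq_zero.2 (Or.inl ⟨![1, 0, 0], ![1, 0, 0], 0, by decide, ?_⟩)
    simp

end Pool.Agent.Results.MP_4cfb12_co.Zero
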